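import Pool.Agent.Lib_helper8.AQ.NCDefs
import Pool.Agent.Lib_helper15.AQ.Mer4
import Pool.Agent.Lib_helper18.AQ.K.DefsW

/-!
# AQ (MP_892e4c_nt, all quadratics): the data of the pairs theorem for the base `j` (helper18)

The bases of the edges `j ≠ 10` have determinant `D`; the base `P` (`j = 10`) is the form in the frame
`z`, `(1, 0)`, with determinant `D z.2 ^ 2`.
-/

set_option autoImplicit false

namespace Pool.Agent.AQ.PENM

open Finset Pool.Agent.PENT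

variable [Cst]

/-- the determinant of the base forms -/
def DJ (j : Fin 11) : ℤ := if j = 10 then D * z.2 ^ 2 else D

/-- all exceptional primes are at most `NZ` -/
def NZ : ℕ := R + z.2.natAbs + 2

theorem NZ_R {p : ℕ} (h : NZ < p) : ¬ p ∣ R := by
  intro h1
  have h2 := Nat.le_of_dvd R_pos h1
  unfold NZ at h
  omega

theorem NZ_z {p : ℕ} (h : NZ < p) : ¬ (p : ℤ) ∣ z.2 := by
  intro h1
  have h2 := Int.le_of_dvd z_two h1
  unfold NZ at h
  omega

theorem DJ_ns (j : Fin 11) : ¬ IsSquare (-DJ j) := by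
  unfold DJ
  split_ifs
  · rintro ⟨s, hs⟩
    have hz : z.2 ≠ 0 := z_two.ne'
    have h1 : z.2 ^ 2 ∣ s ^ 2 := ⟨-D, by linarith [hs]⟩
    rw [Int.pow_dvd_pow_iff two_ne_zero] at h1
    obtain ⟨t, rfl⟩ := h1
    apply D_ns
    refine ⟨t, ?_⟩
    have h2 : z.2 ^ 2 * (-D) = z.2 ^ 2 * (t * t) := by linarith [hs]
    exact mul_left_cancel₀ (pow_ne_zero 2 hz) h2
  · exact D_ns

theorem DJ_prime {j : Fin 11} {p : ℕ} (hp : p.Prime) (h : (p : ℤ) ∣ DJ j) :
    p ∣ R ∨ (p : ℤ) ∣ z.2 := by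
  have hP := Nat.prime_iff_prime_int.1 hp
  unfold DJ at h
  split_ifs at h
  · rcases hP.dvd_or_dvd h with h1 | h1
    · exact Or.inl (prime_dvd_D hp h1)
    · exact Or.inr (hP.dvd_of_dvd_pow h1)
  · exact Or.inl (prime_dvd_D hp h)

open Classical in
theorem DJ_mt (j : Fin 11) : ∃ C : ℝ, ∀ x : ℝ, 2 ≤ x →
    |∑ p ∈ (Icc 1 ⌊x⌋₊).filter (fun p => p.Prime ∧ IsSquare ((-DJ j : ℤ) : ZMod p)), 1 / (p : ℝ) -
      1 / 2 * Real.log (Real.log x)| ≤ C := by
  set N : ℕ := R * z.2.natAbs with hN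
  have hz : 0 < z.2.natAbs := Int.natAbs_pos.2 z_two.ne'
  have hN0 : 0 < N := Nat.mul_pos R_pos hz
  have hdv : ∀ p : ℕ, p.Prime → (p : ℤ) ∣ 2 * -DJ j → p ∣ N := by
    intro p hp h
    have hP := Nat.prime_iff_prime_int.1 hp
    rcases hP.dvd_or_dvd h with h1 | h1
    · have h2 : p ∣ 2 := by exact_mod_cast h1
      exact (h2.trans two_dvd_R).trans (dvd_mul_right _ _)
    · rcases DJ_prime hp ((dvd_neg).1 h1) with h2 | h2
      · exact h2.trans (dvd_mul_right _ _)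
      · exact (Int.natCast_dvd.1 h2).trans (dvd_mul_left _ _)
  obtain ⟨C, hC, H⟩ := AQM.mertens_ssp hN0 (DJ_ns j) hdv
  refine ⟨C + N, fun x hx => ?_⟩
  have h1 := H x hx
  set A := (Icc 1 ⌊x⌋₊).filter (fun p => p.Prime ∧ IsSquare ((-DJ j : ℤ) : ZMod p)) with hA
  set B := (Icc 1 ⌊x⌋₊).filter (fun p => p.Prime ∧ ¬ p ∣ N ∧ IsSquare ((-DJ j : ℤ) : ZMod p)) with hB
  have hBA : B ⊆ A := by
    intro p hp
    rw [hB, mem_filter] at hp
    rw [hA, mem_filter]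
    exact ⟨hp.1, hp.2.1, hp.2.2.2⟩
  have h2 : ∑ p ∈ A, 1 / (p : ℝ) = ∑ p ∈ A \ B, 1 / (p : ℝ) + ∑ p ∈ B, 1 / (p : ℝ) :=
    (sum_sdiff hBA).symm
  have h3 : A \ B ⊆ Icc 1 N := by
    intro p hp
    rw [mem_sdiff, hA, hB, mem_filter, mem_filter] at hp
    obtain ⟨⟨q1, q2, q3⟩, q4⟩ := hp
    rw [mem_Icc] at q1 ⊢
    refine ⟨q1.1, Nat.le_of_dvd hN0 ?_⟩
    by_contra q5
    exact q4 ⟨mem_Icc.2 q1, q2, q5, q3⟩
  have h4 : ∑ p ∈ A \ B, 1 / (p : ℝ) ≤ N := by
    calc ∑ p ∈ A \ B, 1 / (p : ℝ) ≤ ∑ p ∈ A \ B, (1 : ℝ) := by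
          apply sum_le_sum
          intro p hp
          have h5 := (mem_Icc.1 (h3 hp)).1
          rw [div_le_one (by exact_mod_cast h5)]
          exact_mod_cast h5
      _ = ((A \ B).card : ℝ) := by simp
      _ ≤ N := by
          have := card_le_card h3
          rw [Nat.card_Icc] at this
          have h6 : (A \ B).card ≤ N := by omega
          exact_mod_cast h6
  have h5 : 0 ≤ ∑ p ∈ A \ B, 1 / (p : ℝ) := sum_nonneg fun p _ => by positivity
  have h6 : ∑ p ∈ B, 1 / (p : ℝ) = AQM.ssp (-DJ j) N x := rfl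
  rw [h2, h6]
  rw [abs_le] at h1 ⊢
  constructor
  · have : (0 : ℝ) ≤ N := Nat.cast_nonneg _
    linarith [h1.1]
  · linarith [h1.2]

/-- the data for the base `j` -/
noncomputable def fd (j : Fin 11) : PENK.FD where
  D := DJ j
  N0 := NZ
  z := z
  two := by unfold NZ; omega
  bad := fun p hp h h1 => by
    rcases DJ_prime hp h1 with h2 | h2
    · exact NZ_R h h2
    · exact NZ_z h h2
  zy := z_two
  zc := Int.isCoprime_iff_gcd_eq_one.1 z_cop
  zb := fun p _ h => NZ_z h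
  mt := DJ_mt j

/-- the split primes agree -/
theorem Sp_iff (j : Fin 11) {p : ℕ} (hp : p.Prime) (h : NZ < p) :
    @PENK.Sp (fd j) p ↔ Sp p := by
  have : Fact p.Prime := ⟨hp⟩
  have hz : ((z.2 : ℤ) : ZMod p) ≠ 0 := by
    intro h1
    exact NZ_z h ((ZMod.intCast_zmod_eq_zero_iff_dvd _ _).1 h1)
  have key : IsSquare ((-DJ j : ℤ) : ZMod p) ↔ IsSquare ((-D : ℤ) : ZMod p) := by
    unfold DJ
    split_ifs
    · constructor
      · rintro ⟨s, hs⟩
        refine ⟨s * ((z.2 : ℤ) : ZMod p)⁻¹, ?_⟩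
        push_cast at hs ⊢
        field_simp
        linear_combination hs
      · rintro ⟨s, hs⟩
        refine ⟨s * ((z.2 : ℤ) : ZMod p), ?_⟩
        push_cast at hs ⊢
        linear_combination ((z.2 : ZMod p)) ^ 2 * hs
    · exact Iff.rfl
  show IsSquare ((-DJ j : ℤ) : ZMod p) ↔ _
  rw [key]
  constructor
  · rintro ⟨s, hs⟩
    refine ⟨hp, NZ_R h, (s.val : ℤ), ?_⟩
    rw [← ZMod.intCast_zmod_eq_zero_iff_dvd]
    have h4 : ((s.val : ℤ) : ZMod p) = s := by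
      rw [Int.cast_natCast]
      exact ZMod.natCast_zmod_val s
    push_cast at h4 hs ⊢
    rw [h4]
    linear_combination -hs
  · rintro ⟨_, _, t, ht⟩
    rw [← ZMod.intCast_zmod_eq_zero_iff_dvd] at ht
    refine ⟨(t : ZMod p), ?_⟩
    push_cast at ht ⊢
    linear_combination -ht

end Pool.Agent.AQ.PENM
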